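import Pool.Agent.Y545.HM.St

/-!
Colourings of small one-way memory have few factors.
-/

set_option autoImplicit false

namespace Pool.Agent.Q312.FC

open Pool.Agent.Y545.HM Pool.Agent.Y545.HM.St Filter

/-- The factors (blocks of consecutive colours) of length `n` of the colouring `c`. -/
def factors {k : ℕ} (c : ℕ → Fin k) (n : ℕ) : Set (Fin n → Fin k) :=
  {u | ∃ a, ∀ x : Fin n, u x = c (a + x.val)}

/-- Decoding of a factor. -/
noncomputable def dcd {k : ℕ} (c : ℕ → Fin k) (m W n : ℕ) (f : ℕ → Fin W) :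
    Fin (2 ^ m) × Option ((Fin W → Fin k) × (Fin W → Fin k)) → (Fin n → Fin k)
  | (r, none) => fun x => c (r.val + x.val)
  | (r, some (F, G)) => fun x => if r.val + x.val < 2 ^ m then F (f (r.val + x.val)) else
      G (f (r.val + x.val - 2 ^ m))

open Classical in
theorem factors_sub {k : ℕ} (c : ℕ → Fin k) (m W n : ℕ) (f : ℕ → Fin W)
    (hf : ∀ a < 2 ^ m, ∀ b < 2 ^ m, f a = f b →
      ∀ t, 1 ≤ t → c (a + 2 ^ m * t) = c (b + 2 ^ m * t)) (hn : n ≤ 2 ^ m) :
    factors c n ⊆ Set.range (dcd c m W n f) := by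
  rintro u ⟨a, hu⟩
  let F : ℕ → Fin W → Fin k := fun t j =>
    if h : ∃ b, b < 2 ^ m ∧ f b = j then c (h.choose + 2 ^ m * t) else c 0
  have hF : ∀ t, 1 ≤ t → ∀ b, b < 2 ^ m → F t (f b) = c (b + 2 ^ m * t) := by
    intro t ht b hb
    have h : ∃ b', b' < 2 ^ m ∧ f b' = f b := ⟨b, hb, rfl⟩
    have e : F t (f b) = c (h.choose + 2 ^ m * t) := dif_pos h
    rw [e]
    exact hf _ h.choose_spec.1 b hb h.choose_spec.2 t ht
  have hpos : 0 < 2 ^ m := by positivity
  have hr : a % 2 ^ m < 2 ^ m := Nat.mod_lt _ hpos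
  have hda : a % 2 ^ m + 2 ^ m * (a / 2 ^ m) = a := Nat.mod_add_div a (2 ^ m)
  rcases Nat.eq_zero_or_pos (a / 2 ^ m) with h0 | h0
  · refine ⟨(⟨a % 2 ^ m, hr⟩, none), ?_⟩
    funext x
    rw [hu x]
    show c (a % 2 ^ m + x.val) = _
    rw [h0] at hda
    have : a % 2 ^ m = a := by omega
    rw [this]
  · refine ⟨(⟨a % 2 ^ m, hr⟩, some (F (a / 2 ^ m), F (a / 2 ^ m + 1))), ?_⟩
    funext x
    rw [hu x]
    have hx := x.isLt
    show (if a % 2 ^ m + x.val < 2 ^ m then F (a / 2 ^ m) (f (a % 2 ^ m + x.val)) else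
      F (a / 2 ^ m + 1) (f (a % 2 ^ m + x.val - 2 ^ m))) = _
    split_ifs with h1
    · rw [hF _ h0 _ h1]
      congr 1
      omega
    · rw [hF _ (by omega) _ (by omega)]
      congr 1
      rw [Nat.mul_add, Nat.mul_one]
      omega

theorem ncard_factors {k : ℕ} (c : ℕ → Fin k) (m W n : ℕ) (hM : Memory c m W) (hn : n ≤ 2 ^ m) :
    (factors c n).ncard ≤ 2 ^ m * (1 + k ^ (2 * W)) := by
  obtain ⟨f, hf⟩ := hM
  have h1 := Set.ncard_le_ncard (factors_sub c m W n f hf hn) (Set.finite_range _)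
  refine h1.trans ?_
  rw [← Set.image_univ]
  refine (Set.ncard_image_le Set.finite_univ).trans ?_
  rw [Set.ncard_univ, Nat.card_prod, Finite.card_option, Nat.card_prod]
  simp only [Nat.card_eq_fintype_card, Fintype.card_fin, Fintype.card_fun]
  apply le_of_eq
  ring

/-- The memory bound for the complexity bound `h`. -/
def wOf (h : ℕ → ℕ) (m : ℕ) : ℕ := 2 + Nat.log 2 (Nat.log 2 (h (2 ^ (m - 1))))

theorem sq_le_two_pow (l : ℕ) (hl : 4 ≤ l) : l * l ≤ 2 ^ l := by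
  induction l, hl using Nat.le_induction with
  | base => norm_num
  | succ l hl ih =>
    rw [pow_succ]
    nlinarith

theorem eventually_small {k : ℕ} (c : ℕ → Fin k) (h : ℕ → ℕ) (hmono : Monotone h)
    (hub : ∀ B, ∃ m, B ≤ h m) (hM : ∀ m, Memory c m (wOf h m)) :
    ∀ᶠ n in atTop, (factors c n).ncard ≤ n * h n := by
  obtain ⟨m0, hm0⟩ := hub (2 ^ (2 ^ (4 * k + 6)))
  filter_upwards [eventually_ge_atTop (max (m0) 2)] with n hn
  have hn0 : m0 ≤ n := le_trans (le_max_left _ _) hn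
  have hn2 : 2 ≤ n := le_trans (le_max_right _ _) hn
  have hh : 2 ^ (2 ^ (4 * k + 6)) ≤ h n := hm0.trans (hmono hn0)
  set m := Nat.clog 2 n with hm
  have hm1 : n ≤ 2 ^ m := Nat.le_pow_clog (by omega) n
  have hmpos : 0 < m := Nat.clog_pos (by omega) hn2
  have hm2 : 2 ^ (m - 1) < n := Nat.pow_pred_clog_lt_self (by omega) hn2
  have hmm : 2 ^ m = 2 * 2 ^ (m - 1) := by
    rw [← pow_succ']
    congr 1
    omega
  have h1 := ncard_factors c m _ n (hM m) hm1
  set L := Nat.log 2 (h n) with hL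
  set l := Nat.log 2 L with hl
  have hw : wOf h m ≤ 2 + l := by
    unfold wOf
    exact Nat.add_le_add_left (Nat.log_mono_right (Nat.log_mono_right (hmono hm2.le))) _
  have hL1 : 2 ^ (4 * k + 6) ≤ L := by
    have := Nat.log_mono_right (b := 2) hh
    rwa [Nat.log_pow (by omega)] at this
  have hl1 : 4 * k + 6 ≤ l := by
    have := Nat.log_mono_right (b := 2) hL1
    rwa [Nat.log_pow (by omega)] at this
  have hlL : 2 ^ l ≤ L := Nat.pow_log_le_self 2 (by
    have : 0 < 2 ^ (4 * k + 6) := by positivity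
    omega)
  have hLh : 2 ^ L ≤ h n := Nat.pow_log_le_self 2 (by
    have : 0 < 2 ^ (2 ^ (4 * k + 6)) := by positivity
    omega)
  have hk : 1 ≤ k := by
    have := (c 0).isLt
    omega
  have hk2 : k ≤ 2 ^ k := Nat.lt_two_pow_self.le
  have h2 : k ^ (2 * wOf h m) ≤ 2 ^ (k * (2 * (2 + l))) := by
    calc k ^ (2 * wOf h m) ≤ k ^ (2 * (2 + l)) := Nat.pow_le_pow_right hk (by omega)
      _ ≤ (2 ^ k) ^ (2 * (2 + l)) := Nat.pow_le_pow_left hk2 _
      _ = _ := by rw [← pow_mul]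
  have h3 : k * (2 * (2 + l)) + 2 ≤ L := by
    have h4 := sq_le_two_pow l (by omega)
    have h5 : k * (2 * (2 + l)) + 2 ≤ l * l := by nlinarith
    omega
  have h4 : 2 * (1 + k ^ (2 * wOf h m)) ≤ h n := by
    have h5 : 1 ≤ 2 ^ (k * (2 * (2 + l))) := Nat.one_le_two_pow
    calc 2 * (1 + k ^ (2 * wOf h m)) ≤ 2 ^ (k * (2 * (2 + l)) + 2) := by
          rw [pow_add]; omega
      _ ≤ 2 ^ L := Nat.pow_le_pow_right (by omega) h3
      _ ≤ h n := hLh
  calc (factors c n).ncard ≤ 2 ^ m * (1 + k ^ (2 * wOf h m)) := h1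
    _ = 2 ^ (m - 1) * (2 * (1 + k ^ (2 * wOf h m))) := by rw [hmm]; ring
    _ ≤ n * h n := Nat.mul_le_mul hm2.le h4

end Pool.Agent.Q312.FC
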