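import Mathlib

/-!
Countable orbit closures contain periodic points.
-/

set_option autoImplicit false

namespace Pool.Agent.Q312.FC

variable {k : ℕ}

/-- The orbit closure of the colouring `c` under the shift. -/
def OrbitClosure (c : ℕ → Fin k) : Set (ℕ → Fin k) :=
  closure (Set.range fun a : ℕ => fun x : ℕ => c (a + x))

/-- the shift -/
def sh (u : ℕ → Fin k) : ℕ → Fin k := fun x => u (x + 1)

theorem cont_sh : Continuous (sh : (ℕ → Fin k) → ℕ → Fin k) :=
  continuous_pi fun x => continuous_apply (x + 1)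

theorem sh_iter (j : ℕ) (u : ℕ → Fin k) (x : ℕ) : (sh^[j] u) x = u (x + j) := by
  induction j generalizing u with
  | zero => rfl
  | succ j ih =>
    rw [Function.iterate_succ_apply, ih]
    unfold sh
    congr 1

theorem orb_inv (c : ℕ → Fin k) : Set.MapsTo sh (OrbitClosure c) (OrbitClosure c) := by
  refine Set.MapsTo.closure ?_ cont_sh
  rintro _ ⟨a, rfl⟩
  refine ⟨a + 1, ?_⟩
  funext x
  unfold sh
  dsimp only
  congr 1
  omega

theorem cyl_open (x : ℕ → Fin k) (N : ℕ) : IsOpen {u : ℕ → Fin k | ∀ t < N, u t = x t} := by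
  have e : {u : ℕ → Fin k | ∀ t < N, u t = x t} =
      ⋂ t ∈ Finset.range N, (fun u : ℕ → Fin k => u t) ⁻¹' {x t} := by
    ext u
    simp
  rw [e]
  exact isOpen_biInter_finset fun t _ => (isOpen_discrete _).preimage (continuous_apply t)

theorem mem_orb {c x : ℕ → Fin k} (hx : x ∈ OrbitClosure c) (N : ℕ) :
    ∃ a, ∀ t < N, c (a + t) = x t := by
  obtain ⟨_, h1, ⟨a, rfl⟩⟩ := mem_closure_iff.1 hx _ (cyl_open x N) (fun _ _ => rfl)
  exact ⟨a, h1⟩

theorem exists_periodic (c : ℕ → Fin k) (h : (OrbitClosure c).Countable) :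
    ∃ x ∈ OrbitClosure c, ∃ d, 0 < d ∧ ∀ t, x (t + d) = x t := by
  have hne : (OrbitClosure c).Nonempty := ⟨_, subset_closure ⟨0, rfl⟩⟩
  obtain ⟨M, hMO, hM⟩ := zorn_superset_nonempty
    {V : Set (ℕ → Fin k) | V.Nonempty ∧ IsClosed V ∧ Set.MapsTo sh V V} (by
      intro C hC hch hCne
      refine ⟨⋂₀ C, ⟨?_, isClosed_sInter fun V hV => (hC hV).2.1, ?_⟩, fun V hV =>
        Set.sInter_subset_of_mem hV⟩
      · have : Nonempty C := hCne.to_subtype
        have hdir : DirectedOn (fun x1 x2 : Set (ℕ → Fin k) => x1 ⊇ x2) C := by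
          intro V hV W hW
          rcases hch.total hV hW with h1 | h1
          · exact ⟨V, hV, subset_rfl, h1⟩
          · exact ⟨W, hW, h1, subset_rfl⟩
        exact IsCompact.nonempty_sInter_of_directed_nonempty_isCompact_isClosed hdir
          (fun V hV => (hC hV).1) (fun V hV => (hC hV).2.1.isCompact) fun V hV => (hC hV).2.1
      · intro u hu V hV
        exact (hC hV).2.2 (hu V hV)) (OrbitClosure c) ⟨hne, isClosed_closure, orb_inv c⟩
  obtain ⟨hMne, hMc, hMi⟩ := hM.prop
  have hcount : M.Countable := h.mono hMO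
  have : Countable M := hcount.to_subtype
  have : CompactSpace M := isCompact_iff_compactSpace.1 hMc.isCompact
  have : Nonempty M := hMne.to_subtype
  obtain ⟨x, hx⟩ := nonempty_interior_of_iUnion_of_closed (f := fun x : M => ({x} : Set M))
    (fun x => isClosed_singleton) (by ext y; simp)
  have hopen : IsOpen ({x} : Set M) := by
    have h1 : interior ({x} : Set M) = {x} :=
      (Set.subset_singleton_iff_eq.1 interior_subset).resolve_left hx.ne_empty
    rw [← h1]
    exact isOpen_interior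
  obtain ⟨U, hU, hUx⟩ := isOpen_induced_iff.1 hopen
  have hxU : x.1 ∈ U := by
    have : x ∈ (Subtype.val ⁻¹' U : Set M) := by rw [hUx]; rfl
    exact this
  obtain ⟨I, u, hu, hsub⟩ := isOpen_pi_iff.1 hU x.1 hxU
  have hiso : ∀ y ∈ M, (∀ t < I.sup id + 1, y t = x.1 t) → y = x.1 := by
    intro y hy hyx
    have h1 : y ∈ U := by
      apply hsub
      intro t ht
      have h2 : t < I.sup id + 1 := Nat.lt_succ_of_le (Finset.le_sup (f := id) ht)
      rw [hyx t h2]
      exact (hu t ht).2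
    have h2 : (⟨y, hy⟩ : M) ∈ (Subtype.val ⁻¹' U : Set M) := h1
    rw [hUx] at h2
    exact congrArg Subtype.val h2
  have hxM : ∀ j, sh^[j] x.1 ∈ M := by
    intro j
    induction j with
    | zero => exact x.2
    | succ j ih =>
      rw [Function.iterate_succ_apply']
      exact hMi ih
  have hV : closure (Set.range fun j : ℕ => sh^[j + 1] x.1) ∈
      {V : Set (ℕ → Fin k) | V.Nonempty ∧ IsClosed V ∧ Set.MapsTo sh V V} := by
    refine ⟨⟨_, subset_closure ⟨0, rfl⟩⟩, isClosed_closure, Set.MapsTo.closure ?_ cont_sh⟩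
    rintro _ ⟨j, rfl⟩
    exact ⟨j + 1, Function.iterate_succ_apply' sh (j + 1) x.1⟩
  have hVM : closure (Set.range fun j : ℕ => sh^[j + 1] x.1) ⊆ M := by
    refine closure_minimal ?_ hMc
    rintro _ ⟨j, rfl⟩
    exact hxM _
  have hxV := hM.le_of_le hV hVM x.2
  obtain ⟨_, h1, ⟨j, rfl⟩⟩ := mem_closure_iff.1 hxV _ (cyl_open x.1 (I.sup id + 1))
    (fun _ _ => rfl)
  have h2 := hiso _ (hxM (j + 1)) h1
  refine ⟨x.1, hMO x.2, j + 1, by omega, fun t => ?_⟩
  have h3 := congrFun h2 t
  rw [sh_iter] at h3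
  exact h3

end Pool.Agent.Q312.FC
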