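import Pool.Agent.Q312.FC.Orb
import Pool.Agent.Q312.FC.Count
import Pool.Agent.Y579.ST.GREEDY

/-!
A colouring whose orbit closure contains a periodic point has a solution computable from it.
-/

set_option autoImplicit false

namespace Pool.Agent.Q312.FC

open Pool.Agent.Y545.HM Pool.Agent.Helper446.Oracle

theorem exists_residue {k : ℕ} {c x : ℕ → Fin k} (hx : ∀ N, ∃ a, ∀ t < N, c (a + t) = x t)
    (d : ℕ) (hd : 0 < d) : ∃ ρ < d, ∀ N, ∃ a, a % d = ρ ∧ ∀ t < N, c (a + t) = x t := by
  by_contra h
  push Not at h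
  choose! Nf hN using h
  obtain ⟨a, ha⟩ := hx ((Finset.range d).sup Nf)
  have hρ : a % d < d := Nat.mod_lt _ hd
  obtain ⟨t, ht, hne⟩ := hN (a % d) hρ a rfl
  exact hne (ha t (lt_of_lt_of_le ht (Finset.le_sup (Finset.mem_range.2 hρ))))

theorem periodic_solution {Z : Set ℕ} {k : ℕ} {c : ℕ → Fin k} (hc : Gr Z c) {x : ℕ → Fin k}
    {d : ℕ} (hd : 0 < d) (hper : ∀ t, x (t + d) = x t)
    (hx : ∀ N, ∃ a, ∀ t < N, c (a + t) = x t) : ∃ X : Set ℕ, Sol c X ∧ Dec Z X := by
  obtain ⟨ρ, hρ, hr⟩ := exists_residue hx d hd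
  have hmod : ∀ t, x (t % d) = x t := fun t => Function.Periodic.map_mod_nat hper t
  set i := x (d - ρ) with hi
  have key : ∀ a s, a % d = ρ → d ∣ s → a ≤ s → x (s - a) = i := by
    intro a s ha hs has
    rw [hi, ← hmod (s - a), ← hmod (d - ρ)]
    congr 1
    have h1 : (s - a + a) % d = (d - ρ + a) % d := by
      have e1 : s - a + a = s := by omega
      rw [e1, Nat.mod_eq_zero_of_dvd hs, Nat.add_mod, ha]
      symm
      rw [← Nat.dvd_iff_mod_eq_zero]
      rcases Nat.eq_zero_or_pos ρ with h0 | h0
      · subst h0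
        simp
      · rw [Nat.mod_eq_of_lt (show d - ρ < d by omega)]
        have : d - ρ + ρ = d := by omega
        rw [this]
    exact Nat.ModEq.add_right_cancel' a h1
  have hc' : REIn Z fun p : ℕ × Fin (k + 1) => (c p.1).castSucc = p.2 :=
    Gr.post (g := fun j : Fin k => j.castSucc) (Primrec.dom_finite _).to_comp hc
  have hg : REIn Z fun p : ℕ × Fin (k + 1) => (if p.1 % d = 0 then i.castSucc else
      Fin.last k) = p.2 := by
    have h1 : Computable fun n : ℕ => if n % d = 0 then i.castSucc else Fin.last k :=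
      (Primrec.ite (Primrec.eq.comp (Primrec.nat_mod.comp Primrec.id (Primrec.const d))
        (Primrec.const 0)) (Primrec.const _) (Primrec.const _)).to_comp
    exact Gr.of_comp h1
  obtain ⟨X, ⟨hX1, hX2, hX3⟩, hX4, hX5⟩ := Pool.Agent.Y579.ST.t_GREEDY (k + 1)
    (fun n => (c n).castSucc) (fun n => if n % d = 0 then i.castSucc else Fin.last k)
    i.castSucc Z hc' hg (by
      intro S N hS
      have hgi : ∀ n : ℕ, (if n % d = 0 then i.castSucc else Fin.last k) = i.castSucc ↔
          d ∣ n := by
        intro n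
        rw [Nat.dvd_iff_mod_eq_zero]
        split_ifs with h1
        · exact iff_of_true rfl h1
        · refine iff_of_false ?_ h1
          exact fun h2 => (Fin.castSucc_lt_last i).ne h2.symm
      obtain ⟨a, ha1, ha2⟩ := hr (N + d + S.sup id + 2)
      have hy1 : d * ((a + N + d) / d) ≤ a + N + d := Nat.mul_div_le _ _
      have hy2 : a + N < d * ((a + N + d) / d) := by
        have h1 := Nat.lt_mul_div_succ (a + N + d) hd
        have h2 : d * ((a + N + d) / d + 1) = d * ((a + N + d) / d) + d := by ring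
        omega
      set y := d * ((a + N + d) / d) with hy
      have hdy : d ∣ y := Dvd.intro _ rfl
      have hcol : ∀ s, d ∣ s → s ≤ S.sup id → c (s + y) = i := by
        intro s hs hsS
        have h1 := ha2 (s + y - a) (by omega)
        have h2 : a + (s + y - a) = s + y := by omega
        rw [h2] at h1
        rw [h1]
        exact key a (s + y) ha1 (dvd_add hs hdy) (by omega)
      refine ⟨y, by omega, ?_, (hgi y).2 hdy, ?_⟩
      · show (c y).castSucc = i.castSucc
        have := hcol 0 (dvd_zero d) (Nat.zero_le _)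
        rw [Nat.zero_add] at this
        rw [this]
      · intro s hs
        have hds : d ∣ s := (hgi s).1 (hS s hs).2
        refine ⟨?_, (hgi (s + y)).2 (dvd_add hds hdy)⟩
        show (c (s + y)).castSucc = i.castSucc
        rw [hcol s hds (Finset.le_sup (f := id) hs)])
  refine ⟨X, ⟨hX1, hX2, i, fun F hF hne => ?_⟩, hX4, hX5⟩
  exact Fin.castSucc_injective k (hX3 F hF hne)

end Pool.Agent.Q312.FC
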